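import Mathlib
import Pool.Agent.V11211.LipSpec
import Pool.Agent.V11211.LipModel

/-!
# MP_e86906_an, Q1

For every complete pointed metric space `M` (bounded or not) and every Lipschitz map `f : M → M`
fixing the base point whose linearisation `f̂` on the Lipschitz-free space is compact, the set
`A(f)` of orders of periodic points is finite and `σ(f̂) \ {0} = ⋃_{n ∈ A(f)} 𝕌_n`.
-/

namespace Pool.Agent.Results.MP_e86906_an.CompactLipschitzSpectrum

open Pool.Agent.V11211.LipAbs Pool.Agent.V11211.LipSpec

universe u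

/-- The Lipschitz-free space exists: the closed linear span of the evaluations in the dual of
`Lip₀(M)` is a Banach space satisfying `IsLipFree`. -/
theorem exists_lipFree (M : Type u) [MetricSpace M] (o : M) :
    ∃ (F : Type u) (_ : NormedAddCommGroup F) (_ : NormedSpace ℂ F) (_ : CompleteSpace F)
      (δ : M → F), IsLipFree o δ :=
  ⟨Pool.Agent.V11211.LipFree.FreeSpace M o, inferInstance, inferInstance, inferInstance,
    Pool.Agent.V11211.LipFree.dl o, Pool.Agent.V11211.LipModel.isLipFree⟩

theorem result : ∀ (M : Type*) [MetricSpace M] [CompleteSpace M] (o : M) (f : M → M),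
    (∃ L : ℝ, ∀ x y, dist (f x) (f y) ≤ L * dist x y) → f o = o →
    ∀ (F : Type*) [NormedAddCommGroup F] [NormedSpace ℂ F] [CompleteSpace F] (δ : M → F),
      IsLipFree o δ →
      ∀ T : F →L[ℂ] F, (∀ x, T (δ x) = δ (f x)) → IsCompactOperator T →
        (orders f o).Finite ∧
          {lam : ℂ | ¬ Function.Bijective (fun γ => T γ - lam • γ)} \ {0} =
            ⋃ n ∈ orders f o, {z : ℂ | z ^ n = 1} := by
  rintro M _ _ o f ⟨L, hL⟩ hfo F _ _ _ δ hδ T hT hc
  have hL' : ∀ x y, dist (f x) (f y) ≤ |L| * dist x y := fun x y =>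
    (hL x y).trans (mul_le_mul_of_nonneg_right (le_abs_self L) dist_nonneg)
  exact ⟨orders_finite (abs_nonneg L) hL' hfo hδ.freeData hT hc,
    spectrum_eq (abs_nonneg L) hL' hfo hδ.freeData hT hc⟩

end Pool.Agent.Results.MP_e86906_an.CompactLipschitzSpectrum
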